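import Pool.Agent.FK.Final

set_option autoImplicit false

namespace Pool.Agent.Results.MP_42fa54_co.EqualityCase

open H78

/-- Every plane convex body `C` with `θ(C) = (4/3) δ(C)` is an ellipse, and `δ(C) = π/(2√3)` and
`θ(C) = 2π/(3√3)`. -/
theorem result (C : Set Plane) (hC : IsConvexBody C)
    (heq : coveringDensity C = 4 / 3 * packingDensity C) :
    IsEllipse C ∧ packingDensity C = ENNReal.ofReal (Real.pi / (2 * √3)) ∧
      coveringDensity C = ENNReal.ofReal (2 * Real.pi / (3 * √3)) :=
  FK.equality_case hC heq

end Pool.Agent.Results.MP_42fa54_co.EqualityCase
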